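import Mathlib

/-!
Definitions for weak rainbow saturation numbers of complete graphs.
-/

namespace Pool.Agent.Lib.MP_d10f6f_co

/-- The edge `e` lies in a rainbow copy of `K_r` in the edge-coloured graph `(G, χ)`: there is an
`r`-clique `S` of `G` containing both ends of `e` such that any two edges of `G` inside `S` with
the same colour are equal. -/
def InRainbowClique {V : Type} (G : SimpleGraph V) (χ : Sym2 V → ℕ) (r : ℕ) (e : Sym2 V) : Prop :=
  ∃ S : Finset V, G.IsNClique r S ∧ (∀ x ∈ e, x ∈ S) ∧
    ∀ f ∈ G.edgeSet, ∀ g ∈ G.edgeSet, (∀ x ∈ f, x ∈ S) → (∀ x ∈ g, x ∈ S) → χ f = χ g → f = g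

open Classical in
/-- The edge-coloured graph `(G, χ)` (only the values of `χ` on edges of `G` matter) is weakly
`K_r`-rainbow saturated: there is an ordering `l` of the non-edges of `G` such that for every
assignment `c` of pairwise distinct colours to the non-edges, when the non-edges are added in this
order with their colours, each added edge lies in a rainbow `K_r` of the coloured graph obtained
at that moment. -/
def WeaklyRainbowSaturated {V : Type} (r : ℕ) (G : SimpleGraph V) (χ : Sym2 V → ℕ) : Prop :=
  ∃ l : List (Sym2 V), l.Nodup ∧ (∀ e, e ∈ l ↔ e ∈ Gᶜ.edgeSet) ∧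
    ∀ c : Sym2 V → ℕ, Set.InjOn c {e | e ∈ l} →
      ∀ (i : ℕ) (hi : i < l.length),
        InRainbowClique (G ⊔ SimpleGraph.fromEdgeSet {e | e ∈ l.take (i + 1)})
          (fun e => if e ∈ G.edgeSet then χ e else c e) r l[i]

/-- The weak rainbow saturation number `rwsat(n, K_r)`: the minimum number of edges of a weakly
`K_r`-rainbow saturated edge-coloured graph on `n` vertices. -/
noncomputable def rwsat (n r : ℕ) : ℕ :=
  sInf {m | ∃ (G : SimpleGraph (Fin n)) (χ : Sym2 (Fin n) → ℕ),
    WeaklyRainbowSaturated r G χ ∧ G.edgeSet.ncard = m}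

end Pool.Agent.Lib.MP_d10f6f_co
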