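import Pool.Agent.Lib.MP_d10f6f_co.Defs

/-!
The join of a clique on `r - 1` vertices with an independent set, all edges in distinct colours,
is weakly `K_r`-rainbow saturated.
-/

namespace Pool.Agent.Lib.MP_d10f6f_co

open Finset

/-- The complete split graph: the first `k` vertices are joined to everything. -/
def split (n k : ℕ) : SimpleGraph (Fin n) where
  Adj u v := u ≠ v ∧ (u.1 < k ∨ v.1 < k)
  symm := ⟨fun _ _ h => ⟨h.1.symm, h.2.symm⟩⟩
  loopless := ⟨fun _ h => h.1 rfl⟩

instance (n k : ℕ) : DecidableRel (split n k).Adj := fun u v => by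
  unfold split; infer_instance

theorem split_adj {n k : ℕ} {u v : Fin n} :
    (split n k).Adj u v ↔ u ≠ v ∧ (u.1 < k ∨ v.1 < k) := Iff.rfl

theorem card_lt {n k : ℕ} (hk : k ≤ n) : (univ.filter (fun v : Fin n => v.1 < k)).card = k := by
  have : (univ.filter (fun v : Fin n => v.1 < k)) = (univ : Finset (Fin k)).map (Fin.castLEEmb hk) := by
    ext v
    simp only [mem_filter, mem_univ, true_and, mem_map, Fin.castLEEmb_apply]
    constructor
    · intro h
      exact ⟨⟨v.1, h⟩, rfl⟩
    · rintro ⟨a, rfl⟩
      exact a.2
  rw [this, card_map, card_univ, Fintype.card_fin]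

theorem degree_split {n k : ℕ} (hk : k ≤ n) (v : Fin n) :
    (split n k).degree v = if v.1 < k then n - 1 else k := by
  rw [← SimpleGraph.card_neighborFinset_eq_degree]
  split_ifs with h
  · have : (split n k).neighborFinset v = univ.erase v := by
      ext w
      rw [SimpleGraph.mem_neighborFinset, split_adj, mem_erase]
      constructor
      · rintro ⟨h1, _⟩; exact ⟨h1.symm, mem_univ _⟩
      · rintro ⟨h1, _⟩; exact ⟨h1.symm, Or.inl h⟩
    rw [this, card_erase_of_mem (mem_univ _), card_univ, Fintype.card_fin]
  · have : (split n k).neighborFinset v = univ.filter (fun v : Fin n => v.1 < k) := by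
      ext w
      rw [SimpleGraph.mem_neighborFinset, split_adj, mem_filter]
      constructor
      · rintro ⟨_, h1 | h1⟩
        · exact absurd h1 h
        · exact ⟨mem_univ _, h1⟩
      · rintro ⟨_, h1⟩
        refine ⟨?_, Or.inr h1⟩
        rintro rfl
        exact h h1
    rw [this, card_lt hk]

theorem card_edges_split {n k : ℕ} (hk : k ≤ n) :
    2 * (split n k).edgeSet.ncard + k * (k + 1) = 2 * (k * n) := by
  have h := (split n k).sum_degrees_eq_twice_card_edges
  simp_rw [degree_split hk] at h
  rw [Finset.sum_ite, sum_const, sum_const, card_lt hk, smul_eq_mul, smul_eq_mul] at h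
  have h2 : (univ.filter (fun v : Fin n => ¬ v.1 < k)).card = n - k := by
    have : (univ.filter (fun v : Fin n => ¬ v.1 < k)) =
        univ \ (univ.filter (fun v : Fin n => v.1 < k)) := by
      ext v; simp
    rw [this, card_sdiff_of_subset (subset_univ _), card_lt hk, card_univ, Fintype.card_fin]
  rw [h2] at h
  have h3 : (split n k).edgeSet.ncard = #(split n k).edgeFinset := by
    rw [← SimpleGraph.coe_edgeFinset, Set.ncard_coe_finset]
  rw [h3, ← h]
  obtain ⟨d, rfl⟩ := Nat.exists_eq_add_of_le hk
  rcases Nat.eq_zero_or_pos (k + d) with h0 | h0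
  · have : k = 0 := by omega
    subst this
    simp
  · have e1 : k + d - k = d := by omega
    rw [e1]
    obtain ⟨m, hm⟩ : ∃ m, k + d = m + 1 := ⟨k + d - 1, by omega⟩
    rw [hm, Nat.add_sub_cancel, ← hm]
    have : m = k + d - 1 := by omega
    nlinarith

theorem split_saturated {n r : ℕ} (hr : 2 ≤ r) (hn : r - 1 ≤ n) (χ : Sym2 (Fin n) → ℕ)
    (hχ : Function.Injective χ) : WeaklyRainbowSaturated r (split n (r - 1)) χ := by
  classical
  set G := split n (r - 1) with hG
  refine ⟨Gᶜ.edgeFinset.toList, nodup_toList _, fun e => by simp, ?_⟩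
  intro c _ i hi
  set l := Gᶜ.edgeFinset.toList with hl
  have hei : l[i] ∈ Gᶜ.edgeSet := by
    have h0 : l[i] ∈ Gᶜ.edgeFinset.toList := List.getElem_mem hi
    rw [mem_toList, SimpleGraph.mem_edgeFinset] at h0
    exact h0
  generalize he : l[i] = e at hei ⊢
  induction e using Sym2.ind with
  | _ u v =>
    rw [SimpleGraph.mem_edgeSet, SimpleGraph.compl_adj] at hei
    obtain ⟨huv, hadj⟩ := hei
    have hu : ¬ u.1 < r - 1 := fun h => hadj ⟨huv, Or.inl h⟩
    have hv : ¬ v.1 < r - 1 := fun h => hadj ⟨huv, Or.inr h⟩
    -- the core vertex to drop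
    obtain ⟨a, ha, hdrop⟩ : ∃ a : Fin n, a.1 < r - 1 ∧
        ∀ f ∈ G.edgeSet, χ f = c s(u, v) → a ∈ f := by
      by_cases hex : ∃ f ∈ G.edgeSet, χ f = c s(u, v)
      · obtain ⟨f, hf, hfc⟩ := hex
        induction f using Sym2.ind with
        | _ x y =>
          have hxy : x ≠ y ∧ (x.1 < r - 1 ∨ y.1 < r - 1) := hf
          rcases hxy.2 with h | h
          · refine ⟨x, h, fun g _ hgc => ?_⟩
            rw [hχ (hgc.trans hfc.symm)]
            exact Sym2.mem_mk_left x y
          · refine ⟨y, h, fun g _ hgc => ?_⟩
            rw [hχ (hgc.trans hfc.symm)]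
            exact Sym2.mem_mk_right x y
      · have hpos : 0 < n := by omega
        exact ⟨⟨0, hpos⟩, by simp; omega, fun f hf hfc => absurd ⟨f, hf, hfc⟩ hex⟩
    set A : Finset (Fin n) := univ.filter (fun w : Fin n => w.1 < r - 1) with hA
    have haA : a ∈ A := by rw [hA, mem_filter]; exact ⟨mem_univ _, ha⟩
    have huA : u ∉ A.erase a := by
      intro h; rw [mem_erase, hA, mem_filter] at h; exact hu h.2.2
    have hvA : v ∉ A.erase a := by
      intro h; rw [mem_erase, hA, mem_filter] at h; exact hv h.2.2
    have hmemA : ∀ w ∈ A.erase a, w.1 < r - 1 := by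
      intro w hw
      rw [mem_erase, hA, mem_filter] at hw
      exact hw.2.2
    have hue : (s(u, v) : Sym2 (Fin n)) ∈ {e | e ∈ l.take (i + 1)} := by
      have h0 : l[i] ∈ l.take (i + 1) := by
        rw [List.mem_take_iff_getElem]
        exact ⟨i, by omega, rfl⟩
      rw [he] at h0
      exact h0
    refine ⟨insert u (insert v (A.erase a)), ?_, ?_, ?_⟩
    · rw [SimpleGraph.isNClique_iff]
      constructor
      · intro x hx y hy hxy
        rw [mem_coe, mem_insert, mem_insert] at hx hy
        by_cases hxs : x.1 < r - 1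
        · exact Or.inl ⟨hxy, Or.inl hxs⟩
        by_cases hys : y.1 < r - 1
        · exact Or.inl ⟨hxy, Or.inr hys⟩
        right
        rw [SimpleGraph.fromEdgeSet_adj]
        refine ⟨?_, hxy⟩
        have hx' : x = u ∨ x = v := by
          rcases hx with h | h | h
          · exact Or.inl h
          · exact Or.inr h
          · exact absurd (hmemA x h) hxs
        have hy' : y = u ∨ y = v := by
          rcases hy with h | h | h
          · exact Or.inl h
          · exact Or.inr h
          · exact absurd (hmemA y h) hys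
        rcases hx' with rfl | rfl <;> rcases hy' with rfl | rfl
        · exact absurd rfl hxy
        · exact hue
        · rw [Sym2.eq_swap]; exact hue
        · exact absurd rfl hxy
      · rw [card_insert_of_notMem, card_insert_of_notMem hvA, card_erase_of_mem haA, hA,
          card_lt hn]
        · omega
        · rw [mem_insert, not_or]; exact ⟨huv, huA⟩
    · intro x hx
      rw [Sym2.mem_iff] at hx
      rcases hx with rfl | rfl
      · exact mem_insert_self _ _
      · exact mem_insert_of_mem (mem_insert_self _ _)
    · -- rainbow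
      have haS : a ∉ insert u (insert v (A.erase a)) := by
        rw [mem_insert, mem_insert, not_or, not_or]
        exact ⟨fun h => hu (h ▸ ha), fun h => hv (h ▸ ha), fun h => (mem_erase.1 h).1 rfl⟩
      have key : ∀ f ∈ (G ⊔ SimpleGraph.fromEdgeSet {e | e ∈ l.take (i + 1)}).edgeSet,
          (∀ x ∈ f, x ∈ insert u (insert v (A.erase a))) → f ∉ G.edgeSet → f = s(u, v) := by
        intro f hf hfS hfG
        induction f using Sym2.ind with
        | _ x y =>
          have hxy : x ≠ y := by
            rw [SimpleGraph.mem_edgeSet] at hf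
            exact hf.ne
          have hx := hfS x (Sym2.mem_mk_left x y)
          have hy := hfS y (Sym2.mem_mk_right x y)
          rw [mem_insert, mem_insert] at hx hy
          have hxs : ¬ x.1 < r - 1 := fun h => hfG ⟨hxy, Or.inl h⟩
          have hys : ¬ y.1 < r - 1 := fun h => hfG ⟨hxy, Or.inr h⟩
          have hx' : x = u ∨ x = v := by
            rcases hx with h | h | h
            · exact Or.inl h
            · exact Or.inr h
            · exact absurd (hmemA x h) hxs
          have hy' : y = u ∨ y = v := by
            rcases hy with h | h | h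
            · exact Or.inl h
            · exact Or.inr h
            · exact absurd (hmemA y h) hys
          rcases hx' with rfl | rfl <;> rcases hy' with rfl | rfl
          · exact absurd rfl hxy
          · rfl
          · exact Sym2.eq_swap
          · exact absurd rfl hxy
      intro f hf g hg hfS hgS hfg
      by_cases hfG : f ∈ G.edgeSet <;> by_cases hgG : g ∈ G.edgeSet
      · simp only [hfG, hgG, if_true] at hfg
        exact hχ hfg
      · have hg' := key g hg hgS hgG
        simp only [hfG, hgG, if_true, if_false] at hfg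
        rw [hg'] at hfg
        exact absurd (hfS a (hdrop f hfG hfg)) haS
      · have hf' := key f hf hfS hfG
        simp only [hfG, hgG, if_true, if_false] at hfg
        rw [hf'] at hfg
        exact absurd (hgS a (hdrop g hgG hfg.symm)) haS
      · rw [key f hf hfS hfG, key g hg hgS hgG]

/-- The upper bound. -/
theorem main (r n : ℕ) (hr : 3 ≤ r) (hn : r - 1 ≤ n) :
    rwsat n r + r.choose 2 ≤ (r - 1) * n := by
  classical
  obtain ⟨χ, hχ⟩ : ∃ χ : Sym2 (Fin n) → ℕ, Function.Injective χ :=
    ⟨fun e => (Fintype.equivFin (Sym2 (Fin n)) e).1,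
      fun a b h => (Fintype.equivFin (Sym2 (Fin n))).injective (Fin.ext h)⟩
  have h1 : rwsat n r ≤ (split n (r - 1)).edgeSet.ncard :=
    Nat.sInf_le ⟨split n (r - 1), χ, split_saturated (by omega) hn χ hχ, rfl⟩
  have h2 := card_edges_split hn
  have h3 : 2 * r.choose 2 = r * (r - 1) := by
    rw [Nat.choose_two_right]
    exact Nat.mul_div_cancel' (Nat.even_mul_pred_self r).two_dvd
  obtain ⟨k, rfl⟩ : ∃ k, r = k + 1 := ⟨r - 1, by omega⟩
  rw [Nat.add_sub_cancel] at *
  nlinarith

end Pool.Agent.Lib.MP_d10f6f_co
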